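import Mathlib

namespace Pool.Agent.Results.MP_afd993_co.NoConstant

def Dominating {V : Type} (G : SimpleGraph V) (S : Finset V) : Prop :=
  ∀ v, v ∉ S → ∃ u ∈ S, G.Adj v u

noncomputable def gamma {V : Type} (G : SimpleGraph V) : ℕ :=
  sInf {m | ∃ S : Finset V, Dominating G S ∧ S.card = m}

def IsCover {W V : Type} (G : SimpleGraph W) (F : SimpleGraph V) (k : ℕ) (p : W → V) : Prop :=
  Function.Surjective p ∧ (∀ w, Set.BijOn p (G.neighborSet w) (F.neighborSet (p w))) ∧
    ∀ u, (p ⁻¹' {u}).ncard = k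

abbrev A (t : ℕ) := ZMod t × Bool

abbrev B (t : ℕ) := A t ⊕ (ZMod t ↪ A t)

variable (t : ℕ)

def adj : B t → B t → Prop
  | Sum.inl a, Sum.inl b => a ≠ b
  | Sum.inl a, Sum.inr g => ∃ i, g i = a
  | Sum.inr g, Sum.inl a => ∃ i, g i = a
  | Sum.inr _, Sum.inr _ => False

def base : SimpleGraph (B t) where
  Adj := adj t
  symm := ⟨by
    rintro (a | a) (b | b) h
    · exact Ne.symm h
    · exact h
    · exact h
    · exact h⟩
  loopless := ⟨by
    rintro (a | a) h
    · exact h rfl
    · exact h⟩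

noncomputable def volt : B t → B t → ZMod t
  | Sum.inl a, Sum.inl b => b.1 - a.1
  | Sum.inl a, Sum.inr g => Function.invFun g a
  | Sum.inr g, Sum.inl a => - Function.invFun g a
  | Sum.inr _, Sum.inr _ => 0

lemma volt_symm (u v : B t) : volt t v u = - volt t u v := by
  rcases u with a | a <;> rcases v with b | b <;> simp [volt]

def lift : SimpleGraph (B t × ZMod t) where
  Adj x y := (base t).Adj x.1 y.1 ∧ y.2 = x.2 + volt t x.1 y.1
  symm := ⟨fun x y h => ⟨h.1.symm, by rw [h.2, volt_symm t x.1 y.1]; ring⟩⟩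
  loopless := ⟨fun x h => h.1.ne rfl⟩

lemma cover [NeZero t] : IsCover (lift t) (base t) t Prod.fst := by
  refine ⟨fun u => ⟨(u, 0), rfl⟩, fun w => ⟨fun x hx => hx.1, ?_, ?_⟩, fun u => ?_⟩
  · intro x hx y hy e
    exact Prod.ext e (by rw [hx.2, hy.2, e])
  · intro u hu
    exact ⟨(u, w.2 + volt t w.1 u), ⟨hu, rfl⟩, rfl⟩
  · have : (Prod.fst ⁻¹' {u} : Set (B t × ZMod t)) = (fun i => (u, i)) '' Set.univ := by
      ext ⟨a, b⟩
      simp [eq_comm]
    rw [this, Set.ncard_image_of_injective _ (fun a b h => (Prod.ext_iff.mp h).2),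
      Set.ncard_univ, Nat.card_zmod]

lemma upper [NeZero t] : gamma (lift t) ≤ 2 * t := by
  classical
  apply Nat.sInf_le
  refine ⟨Finset.univ.image fun a : A t => (Sum.inl a, 0), ?_, ?_⟩
  · rintro ⟨a | g, i⟩ hv
    · have hi : i ≠ 0 := by
        rintro rfl
        exact hv (Finset.mem_image_of_mem _ (Finset.mem_univ a))
      refine ⟨_, Finset.mem_image_of_mem _ (Finset.mem_univ (a.1 - i, a.2)), ?_, ?_⟩
      · intro e
        exact hi (by simpa using (congrArg Prod.fst e).symm)
      · simp [volt]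
    · refine ⟨_, Finset.mem_image_of_mem _ (Finset.mem_univ (g i)), ⟨i, rfl⟩, ?_⟩
      simp [volt, Function.leftInverse_invFun g.injective i]
  · rw [Finset.card_image_of_injective _ (fun a b h => by simpa using h)]
    simp [mul_comm]

lemma lower [NeZero t] : t ≤ gamma (base t) := by
  classical
  apply le_csInf
  · exact ⟨_, Finset.univ, fun v hv => absurd (Finset.mem_univ v) hv, rfl⟩
  rintro m ⟨S, hS, rfl⟩
  by_contra hlt
  have h1 : (Finset.univ.filter fun a : A t => Sum.inl a ∈ S).card ≤ S.card :=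
    Finset.card_le_card_of_injOn Sum.inl (fun a ha => (Finset.mem_filter.mp ha).2)
      (fun _ _ _ _ h => Sum.inl_injective h)
  have h2 := Finset.card_filter_add_card_filter_not (s := (Finset.univ : Finset (A t)))
    (fun a => Sum.inl a ∈ S)
  have h3 : (Finset.univ : Finset (A t)).card = t * 2 := by simp
  obtain ⟨g, hg⟩ := Function.Embedding.exists_of_card_le_finset (α := ZMod t)
    (s := Finset.univ.filter fun a : A t => ¬ Sum.inl a ∈ S) (by rw [ZMod.card]; omega)
  let r : ZMod t → B t := fun j => Sum.inr ((Equiv.addRight j).toEmbedding.trans g)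
  have hr : Function.Injective r := by
    intro i j h
    have := DFunLike.congr_fun (Sum.inr_injective h) 0
    simpa using this
  have hin : ∀ j, r j ∈ S := by
    intro j
    by_contra hn
    obtain ⟨a | a, ha, h⟩ := hS _ hn
    · obtain ⟨i, rfl⟩ := h
      exact (Finset.mem_filter.mp (hg ⟨i + j, rfl⟩)).2 ha
    · exact h
  have := Finset.card_le_card_of_injOn (s := Finset.univ) r (fun j _ => hin j) hr.injOn
  rw [Finset.card_univ, ZMod.card] at this
  omega

theorem result : ¬ ∃ c : ℝ, 0 < c ∧ ∀ (k : ℕ) (W V : Type) [Fintype W] [Fintype V]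
    (G : SimpleGraph W) (F : SimpleGraph V) (p : W → V), 1 ≤ k → IsCover G F k p →
      c * k * gamma F ≤ gamma G := by
  rintro ⟨c, hc, h⟩
  obtain ⟨t, ht⟩ := exists_nat_gt (2 / c)
  have t0 : (0 : ℝ) < t := lt_trans (by positivity) ht
  haveI : NeZero t := ⟨by rintro rfl; simp at t0⟩
  classical
  have h1 := h t _ _ (lift t) (base t) Prod.fst (by exact_mod_cast t0) (cover t)
  have h2 : (gamma (lift t) : ℝ) ≤ 2 * t := by exact_mod_cast upper t
  have h3 : (t : ℝ) ≤ gamma (base t) := by exact_mod_cast lower t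
  rw [div_lt_iff₀ hc] at ht
  have h4 : c * t * t ≤ c * t * gamma (base t) := mul_le_mul_of_nonneg_left h3 (by positivity)
  nlinarith

end Pool.Agent.Results.MP_afd993_co.NoConstant
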